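import Pool.Agent.N549.AB.Stm3
import Pool.Agent.N364.HG.Conf

/-!
AB/MOM2 (helper624): the second factorial moment of a hard-core gas.
-/

set_option autoImplicit false

namespace Pool.Agent.N624.DC

open MeasureTheory Set Finset
open scoped ENNReal NNReal
open Pool.Agent.N549.HG (A Z Adm nice_Z nice_A A_smul)
open Pool.Agent.N549.AB
open Pool.Agent.N364.HG (Wk Wk_meas A_eq)

variable {Ω : Type} [MeasurableSpace Ω] {μ : Measure Ω} [IsProbabilityMeasure μ]
  {F : Ω → Ω → ℝ≥0∞}

theorem succ_lint (k : ℕ) (g : Ω × (Fin k → Ω) → ℝ≥0∞) (hg : Measurable g) :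
    ∫⁻ x : Fin (k + 1) → Ω, g (x 0, fun j => x j.succ) ∂(Measure.pi fun _ => μ) =
      ∫⁻ u, ∫⁻ y : Fin k → Ω, g (u, y) ∂(Measure.pi fun _ => μ) ∂μ := by
  rw [← lintegral_prod _ hg.aemeasurable]
  have h2 := (measurePreserving_piFinSuccAbove (fun _ : Fin (k + 1) => μ) 0).lintegral_comp hg
  rw [← h2]
  rfl

omit [MeasurableSpace Ω] in
open scoped Classical in
theorem Wk_ind (h01 : ∀ x y, F x y = 0 ∨ F x y = 1) (k : ℕ) (x : Fin k → Ω) :
    Wk F k x = if ∀ i j, i < j → F (x i) (x j) = 1 then 1 else 0 := by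
  induction k with
  | zero =>
    rw [if_pos fun i => i.elim0]
    rfl
  | succ k ih =>
    show (∏ j : Fin k, F (x 0) (x j.succ)) * Wk F k (fun j => x j.succ) = _
    rw [ih]
    by_cases h : ∀ i j, i < j → F (x i) (x j) = 1
    · rw [if_pos h, if_pos fun i j hij => h _ _ (Fin.succ_lt_succ_iff.2 hij), mul_one]
      exact Finset.prod_eq_one fun j _ => h 0 j.succ (Fin.succ_pos j)
    · rw [if_neg h]
      by_cases h2 : ∀ i j : Fin k, i < j → F (x i.succ) (x j.succ) = 1
      · rw [if_pos h2, mul_one]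
        have h3 : ∃ j : Fin k, ¬ F (x 0) (x j.succ) = 1 := by
          by_contra hcon
          push Not at hcon
          refine h fun i j hij => ?_
          induction i using Fin.cases with
          | zero =>
            induction j using Fin.cases with
            | zero => exact absurd hij (lt_irrefl _)
            | succ j => exact hcon j
          | succ i =>
            induction j using Fin.cases with
            | zero => exact absurd hij (Fin.not_lt_zero _)
            | succ j => exact h2 i j (Fin.succ_lt_succ_iff.1 hij)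
        obtain ⟨j, hj⟩ := h3
        exact Finset.prod_eq_zero (Finset.mem_univ j) ((h01 _ _).resolve_right hj)
      · rw [if_neg h2, mul_zero]

theorem Wk_perm (hF : Adm F) (h01 : ∀ x y, F x y = 0 ∨ F x y = 1) (k : ℕ) (x : Fin k → Ω)
    (e : Equiv.Perm (Fin k)) : Wk F k (fun i => x (e i)) = Wk F k x := by
  classical
  rw [Wk_ind h01, Wk_ind h01]
  have h : ∀ (y : Fin k → Ω), (∀ i j, i < j → F (y i) (y j) = 1) ↔
      (∀ i j, i ≠ j → F (y i) (y j) = 1) := by
    intro y
    constructor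
    · intro h i j hij
      rcases lt_or_gt_of_ne hij with h1 | h1
      · exact h i j h1
      · rw [hF.symm]; exact h j i h1
    · exact fun h i j hij => h i j hij.ne
  have h2 : (∀ i j, i < j → F (x (e i)) (x (e j)) = 1) ↔ (∀ i j, i < j → F (x i) (x j) = 1) := by
    rw [h (fun i => x (e i)), h x]
    constructor
    · intro h3 i j hij
      have h4 := h3 (e.symm i) (e.symm j) (fun h5 => hij (e.symm.injective h5))
      simpa using h4
    · intro h3 i j hij
      exact h3 (e i) (e j) (fun h5 => hij (e.injective h5))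
  exact if_congr h2 rfl rfl

theorem perm_lint (k : ℕ) (g : (Fin k → Ω) → ℝ≥0∞) (hg : Measurable g)
    (e : Equiv.Perm (Fin k)) :
    ∫⁻ x : Fin k → Ω, g (fun i => x (e i)) ∂(Measure.pi fun _ => μ) =
      ∫⁻ x : Fin k → Ω, g x ∂(Measure.pi fun _ => μ) := by
  have h := (measurePreserving_piCongrLeft (fun _ : Fin k => μ) e.symm).lintegral_comp hg
  rw [← h]
  refine lintegral_congr fun x => ?_
  congr 1
  funext i
  have h2 := Equiv.piCongrLeft_apply_apply (P := fun _ : Fin k => Ω) e.symm x (e i)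
  rw [Equiv.symm_apply_apply] at h2
  exact h2.symm

/-- the integral for the pair `(i, j)` -/
noncomputable def Q (μ : Measure Ω) (F : Ω → Ω → ℝ≥0∞) (B : Set (Ω × Ω)) (k : ℕ)
    (p : Fin k × Fin k) : ℝ≥0∞ :=
  ∫⁻ x : Fin k → Ω, Wk F k x * B.indicator 1 (x p.1, x p.2) ∂(Measure.pi fun _ => μ)

theorem meas_pair {k : ℕ} {B : Set (Ω × Ω)} (hB : MeasurableSet B) (p : Fin k × Fin k) :
    Measurable fun x : Fin k → Ω => (B.indicator 1 (x p.1, x p.2) : ℝ≥0∞) := by
  have h1 : Measurable (B.indicator (1 : Ω × Ω → ℝ≥0∞)) := measurable_one.indicator hB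
  exact h1.comp ((measurable_pi_apply p.1).prodMk (measurable_pi_apply p.2))

theorem exists_perm {k : ℕ} (i j : Fin (k + 2)) (h : i ≠ j) :
    ∃ e : Equiv.Perm (Fin (k + 2)), e 0 = i ∧ e 1 = j := by
  refine ⟨Equiv.swap 0 i * Equiv.swap 1 (Equiv.swap 0 i j), ?_, ?_⟩
  · have h1 : Equiv.swap 1 (Equiv.swap 0 i j) 0 = 0 := by
      apply Equiv.swap_apply_of_ne_of_ne Fin.zero_ne_one
      intro h0
      apply h
      have h1 := congrArg (Equiv.swap 0 i) h0
      rw [Equiv.swap_apply_left, Equiv.swap_apply_self] at h1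
      exact h1
    rw [Equiv.Perm.mul_apply, h1, Equiv.swap_apply_left]
  · rw [Equiv.Perm.mul_apply, Equiv.swap_apply_left, Equiv.swap_apply_self]

theorem Q_eq (hF : Adm F) (h01 : ∀ x y, F x y = 0 ∨ F x y = 1) {B : Set (Ω × Ω)}
    (hB : MeasurableSet B) (k : ℕ) (p : Fin (k + 2) × Fin (k + 2)) (hp : p.1 ≠ p.2) :
    Q μ F B (k + 2) p = Q μ F B (k + 2) (0, 1) := by
  obtain ⟨e, h0, h1⟩ := exists_perm p.1 p.2 hp
  unfold Q
  have hm : Measurable fun x : Fin (k + 2) → Ω => Wk F (k + 2) x *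
      (B.indicator 1 (x 0, x 1) : ℝ≥0∞) := (Wk_meas hF.meas _).mul (meas_pair hB (0, 1))
  have h := perm_lint (μ := μ) (k + 2) _ hm e
  rw [← h]
  refine lintegral_congr fun x => ?_
  show Wk F (k + 2) x * B.indicator 1 (x p.1, x p.2) =
    Wk F (k + 2) (fun i => x (e i)) * B.indicator 1 (x (e 0), x (e 1))
  rw [Wk_perm hF h01, h0, h1]

theorem Q_zero_one (hF : Adm F) {B : Set (Ω × Ω)} (hB : MeasurableSet B)
    (hBF : ∀ p ∈ B, F p.1 p.2 = 1) (k : ℕ) :
    Q μ F B (k + 2) (0, 1) = ∫⁻ p in B, A μ F k (fun y => F p.1 y * F p.2 y) ∂(μ.prod μ) := by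
  have hI : Measurable (B.indicator (1 : Ω × Ω → ℝ≥0∞)) := measurable_one.indicator hB
  have hFm := hF.meas
  -- the first coordinate
  obtain ⟨g, hg⟩ : ∃ g : Ω × (Fin (k + 1) → Ω) → ℝ≥0∞, g = fun q =>
      (∏ j : Fin (k + 1), F q.1 (q.2 j)) * Wk F (k + 1) q.2 * B.indicator 1 (q.1, q.2 0) := ⟨_, rfl⟩
  have hgm : Measurable g := by
    rw [hg]
    refine (Measurable.mul ?_ ((Wk_meas hFm _).comp measurable_snd)).mul ?_
    · refine Finset.measurable_prod _ fun j _ => ?_
      exact hFm.comp (measurable_fst.prodMk ((measurable_pi_apply j).comp measurable_snd))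
    · exact hI.comp (measurable_fst.prodMk ((measurable_pi_apply 0).comp measurable_snd))
  have h1 : Q μ F B (k + 2) (0, 1) =
      ∫⁻ x : Fin (k + 1 + 1) → Ω, g (x 0, fun j => x j.succ) ∂(Measure.pi fun _ => μ) := by
    rw [hg]
    rfl
  rw [h1, succ_lint (k + 1) g hgm]
  -- the second coordinate
  have h2 : ∀ u : Ω, ∫⁻ y : Fin (k + 1) → Ω, g (u, y) ∂(Measure.pi fun _ => μ) =
      ∫⁻ v, B.indicator (fun p : Ω × Ω => A μ F k (fun y => F p.1 y * F p.2 y)) (u, v) ∂μ := by
    intro u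
    obtain ⟨g', hg'⟩ : ∃ g' : Ω × (Fin k → Ω) → ℝ≥0∞, g' = fun q =>
        (F u q.1 * ∏ j : Fin k, F u (q.2 j)) * ((∏ j : Fin k, F q.1 (q.2 j)) * Wk F k q.2) *
          B.indicator 1 (u, q.1) := ⟨_, rfl⟩
    have hg'm : Measurable g' := by
      rw [hg']
      refine (Measurable.mul (Measurable.mul ?_ ?_) (Measurable.mul ?_ ((Wk_meas hFm _).comp
        measurable_snd))).mul ?_
      · exact hFm.comp (measurable_const.prodMk measurable_fst)
      · refine Finset.measurable_prod _ fun j _ => ?_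
        exact hFm.comp (measurable_const.prodMk ((measurable_pi_apply j).comp measurable_snd))
      · refine Finset.measurable_prod _ fun j _ => ?_
        exact hFm.comp (measurable_fst.prodMk ((measurable_pi_apply j).comp measurable_snd))
      · exact hI.comp (measurable_const.prodMk measurable_fst)
    have h3 : ∫⁻ y : Fin (k + 1) → Ω, g (u, y) ∂(Measure.pi fun _ => μ) =
        ∫⁻ y : Fin (k + 1) → Ω, g' (y 0, fun j => y j.succ) ∂(Measure.pi fun _ => μ) := by
      refine lintegral_congr fun y => ?_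
      rw [hg, hg']
      show (∏ j : Fin (k + 1), F u (y j)) * Wk F (k + 1) y * B.indicator 1 (u, y 0) =
        (F u (y 0) * ∏ j : Fin k, F u (y j.succ)) * ((∏ j : Fin k, F (y 0) (y j.succ)) *
          Wk F k (fun j => y j.succ)) * B.indicator 1 (u, y 0)
      rw [Fin.prod_univ_succ]
      rfl
    rw [h3, succ_lint k g' hg'm]
    refine lintegral_congr fun v => ?_
    have hmv : Measurable fun y => F u y * F v y :=
      (hFm.comp (measurable_const.prodMk measurable_id)).mul
        (hFm.comp (measurable_const.prodMk measurable_id))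
    by_cases hv : (u, v) ∈ B
    · rw [Set.indicator_of_mem hv, A_eq hFm k _ hmv]
      refine lintegral_congr fun z => ?_
      rw [hg']
      beta_reduce
      rw [Set.indicator_of_mem hv, hBF (u, v) hv, Pi.one_apply, mul_one, one_mul,
        Finset.prod_mul_distrib, mul_assoc]
    · rw [Set.indicator_of_notMem hv]
      have h4 : ∀ z, g' (v, z) = 0 := by
        intro z
        rw [hg']
        beta_reduce
        rw [Set.indicator_of_notMem hv, mul_zero]
      simp only [h4, lintegral_zero]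
  have hA : Measurable fun p : Ω × Ω => A μ F k (fun y => F p.1 y * F p.2 y) := by
    refine nice_A hF k (Ω × Ω) (fun p y => F p.1 y * F p.2 y) ?_
    exact (hFm.comp ((measurable_fst.comp measurable_fst).prodMk measurable_snd)).mul
      (hFm.comp ((measurable_snd.comp measurable_fst).prodMk measurable_snd))
  rw [lintegral_congr h2, ← lintegral_indicator hB, lintegral_prod _ (hA.indicator hB).aemeasurable]

theorem tsum_two (f : ℕ → ℝ≥0∞) : ∑' k, f k = f 0 + (f 1 + ∑' k, f (k + 2)) := by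
  rw [tsum_eq_zero_add' ENNReal.summable, tsum_eq_zero_add' (f := fun k => f (k + 1))
    ENNReal.summable]

theorem arith (c I : ℝ≥0∞) (k : ℕ) :
    c ^ (k + 2) / ((k + 2).factorial : ℝ≥0∞) * (((k + 2) * (k + 1) : ℕ) * I) =
      c ^ 2 * (c ^ k / (k.factorial : ℝ≥0∞) * I) := by
  have h8 : ((k + 2).factorial : ℝ≥0∞) =
      (((k + 2) * (k + 1) : ℕ) : ℝ≥0∞) * (k.factorial : ℝ≥0∞) := by
    rw [Nat.factorial_succ, Nat.factorial_succ]
    push_cast
    ring
  have h9 : (((k + 2) * (k + 1) : ℕ) : ℝ≥0∞) ≠ 0 := by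
    rw [Nat.cast_ne_zero]
    positivity
  have h10 : (((k + 2) * (k + 1) : ℕ) : ℝ≥0∞) ≠ ∞ := ENNReal.natCast_ne_top _
  rw [h8, ENNReal.div_eq_inv_mul, ENNReal.div_eq_inv_mul,
    ENNReal.mul_inv (Or.inl h9) (Or.inl h10)]
  generalize (((k + 2) * (k + 1) : ℕ) : ℝ≥0∞) = a at h9 h10
  calc a⁻¹ * (k.factorial : ℝ≥0∞)⁻¹ * c ^ (k + 2) * (a * I) =
      (a⁻¹ * a) * ((k.factorial : ℝ≥0∞)⁻¹ * c ^ (k + 2) * I) := by ring
    _ = _ := by rw [ENNReal.inv_mul_cancel h9 h10]; ring

theorem mom2 : S_MOM2 := by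
  classical
  intro Ω _ μ _ F hF h01 B hB hBF c hc
  have hFm := hF.meas
  obtain ⟨Cf, hCf⟩ : ∃ Cf : (k : ℕ) → Set (Fin k → Ω),
      Cf = fun k => {x | ∀ i j, i < j → F (x i) (x j) = 1} := ⟨_, rfl⟩
  have hms : ∀ k, MeasurableSet (Cf k) := by
    intro k
    have h2 : Cf k = Wk F k ⁻¹' {1} := by
      ext x
      rw [Set.mem_preimage, Wk_ind h01, Set.mem_singleton_iff, hCf]
      split_ifs with h
      · exact ⟨fun _ => rfl, fun _ => h⟩
      · exact ⟨fun h' => absurd h' h, fun h' => absurd h' zero_ne_one⟩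
    rw [h2]
    exact Wk_meas hFm k (measurableSet_singleton 1)
  -- the number of pairs
  have hN : ∀ (k : ℕ) (x : Fin k → Ω),
      ((#{p : Fin k × Fin k | p.1 ≠ p.2 ∧ (x p.1, x p.2) ∈ B} : ℕ) : ℝ≥0∞) =
        ∑ p ∈ univ.filter (fun p : Fin k × Fin k => p.1 ≠ p.2), B.indicator 1 (x p.1, x p.2) := by
    intro k x
    rw [← Finset.filter_filter, Finset.card_filter, Nat.cast_sum]
    refine Finset.sum_congr rfl fun p _ => ?_
    rw [Set.indicator_apply]
    split_ifs <;> simp
  have hNm : ∀ k : ℕ, Measurable fun x : Fin k → Ω =>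
      ((#{p : Fin k × Fin k | p.1 ≠ p.2 ∧ (x p.1, x p.2) ∈ B} : ℕ) : ℝ≥0∞) := by
    intro k
    simp only [hN]
    exact Finset.measurable_sum _ fun p _ => meas_pair hB p
  obtain ⟨Tk, hTk⟩ : ∃ Tk : ℕ → ℝ≥0∞, Tk = fun k => ∫⁻ x in Cf k,
      ((#{p : Fin k × Fin k | p.1 ≠ p.2 ∧ (x p.1, x p.2) ∈ B} : ℕ) : ℝ≥0∞)
        ∂(Measure.pi fun _ : Fin k => μ) := ⟨_, rfl⟩
  have hTfin : ∀ k, Tk k ≠ ∞ := by
    intro k
    rw [hTk]
    beta_reduce
    have h1 : ∫⁻ x in Cf k, ((#{p : Fin k × Fin k | p.1 ≠ p.2 ∧ (x p.1, x p.2) ∈ B} : ℕ) : ℝ≥0∞)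
        ∂(Measure.pi fun _ : Fin k => μ) ≤
        ∫⁻ _ in Cf k, ((Fintype.card (Fin k × Fin k) : ℕ) : ℝ≥0∞)
        ∂(Measure.pi fun _ : Fin k => μ) :=
      lintegral_mono fun x => by
        beta_reduce
        exact_mod_cast Finset.card_le_univ _
    refine (h1.trans_lt ?_).ne
    rw [lintegral_const]
    exact ENNReal.mul_lt_top (ENNReal.natCast_lt_top _) (measure_lt_top _ _)
  have hTreal : ∀ k, ∫ x in Cf k, ((#{p : Fin k × Fin k | p.1 ≠ p.2 ∧ (x p.1, x p.2) ∈ B} : ℕ) : ℝ)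
      ∂(Measure.pi fun _ : Fin k => μ) = (Tk k).toReal := by
    intro k
    rw [hTk]
    beta_reduce
    rw [← integral_toReal (hNm k).aemeasurable (ae_of_all _ fun x => ENNReal.natCast_lt_top _)]
    refine integral_congr_ae (ae_of_all _ fun x => ?_)
    beta_reduce
    rw [ENNReal.toReal_natCast]
  -- the evaluation
  have hT : ∀ k, Tk k = ∑ p ∈ univ.filter (fun p : Fin k × Fin k => p.1 ≠ p.2), Q μ F B k p := by
    intro k
    rw [hTk]
    beta_reduce
    rw [← lintegral_indicator (hms k)]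
    unfold Q
    rw [← lintegral_finsetSum (f := fun (p : Fin k × Fin k) (x : Fin k → Ω) =>
      Wk F k x * B.indicator 1 (x p.1, x p.2)) _ fun p _ => (Wk_meas hFm k).mul (meas_pair hB p)]
    refine lintegral_congr fun x => ?_
    rw [Set.indicator_apply, hN, ← Finset.mul_sum, Wk_ind h01]
    have h2 : (x ∈ Cf k) ↔ ∀ i j, i < j → F (x i) (x j) = 1 := by
      rw [hCf]; exact Iff.rfl
    by_cases h3 : ∀ i j, i < j → F (x i) (x j) = 1
    · rw [if_pos (h2.2 h3), if_pos h3, one_mul]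
    · rw [if_neg (fun h => h3 (h2.1 h)), if_neg h3, zero_mul]
  have hT0 : Tk 0 = 0 := by
    rw [hT, Finset.sum_eq_zero]
    intro p _
    exact p.1.elim0
  have hT1 : Tk 1 = 0 := by
    rw [hT, Finset.sum_eq_zero]
    intro p hp
    rw [Finset.mem_filter] at hp
    exact absurd (Subsingleton.elim _ _) hp.2
  have hT2 : ∀ k, Tk (k + 2) = (((k + 2) * (k + 1) : ℕ) : ℝ≥0∞) *
      ∫⁻ p in B, A μ F k (fun y => F p.1 y * F p.2 y) ∂(μ.prod μ) := by
    intro k
    rw [hT, ← Q_zero_one hF hB hBF]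
    rw [Finset.sum_congr rfl (fun p hp => Q_eq (μ := μ) hF h01 hB k p (Finset.mem_filter.1 hp).2),
      Finset.sum_const, nsmul_eq_mul]
    congr 2
    have h1 : (univ.filter fun p : Fin (k + 2) × Fin (k + 2) => p.1 ≠ p.2) =
        (univ : Finset (Fin (k + 2))).offDiag := by
      ext p
      simp
    rw [h1, Finset.offDiag_card, Finset.card_univ, Fintype.card_fin]
    have : (k + 2) * (k + 2) = (k + 2) * (k + 1) + (k + 2) := by ring
    omega
  have hAm : ∀ k, Measurable fun p : Ω × Ω => A μ F k (fun y => F p.1 y * F p.2 y) := by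
    intro k
    refine nice_A hF k (Ω × Ω) (fun p y => F p.1 y * F p.2 y) ?_
    exact (hFm.comp ((measurable_fst.comp measurable_fst).prodMk measurable_snd)).mul
      (hFm.comp ((measurable_snd.comp measurable_fst).prodMk measurable_snd))
  have hZm : Measurable fun p : Ω × Ω =>
      Z μ F (fun y => ENNReal.ofReal c * (F p.1 y * F p.2 y)) := by
    refine nice_Z hF (Ω × Ω) (fun p y => ENNReal.ofReal c * (F p.1 y * F p.2 y)) ?_
    exact measurable_const.mul ((hFm.comp ((measurable_fst.comp measurable_fst).prodMk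
      measurable_snd)).mul (hFm.comp ((measurable_snd.comp measurable_fst).prodMk measurable_snd)))
  have hmain : ∑' k : ℕ, ENNReal.ofReal c ^ k / (k.factorial : ℝ≥0∞) * Tk k =
      ENNReal.ofReal c ^ 2 *
        ∫⁻ p in B, Z μ F (fun y => ENNReal.ofReal c * (F p.1 y * F p.2 y)) ∂(μ.prod μ) := by
    rw [tsum_two, hT0, hT1, mul_zero, mul_zero, zero_add, zero_add]
    have h1 : ∀ p : Ω × Ω, Z μ F (fun y => ENNReal.ofReal c * (F p.1 y * F p.2 y)) =
        ∑' k : ℕ, ENNReal.ofReal c ^ k / (k.factorial : ℝ≥0∞) *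
          A μ F k (fun y => F p.1 y * F p.2 y) := by
      intro p
      unfold Z
      refine tsum_congr fun k => ?_
      rw [A_smul hF, ENNReal.div_eq_inv_mul, ENNReal.div_eq_inv_mul, mul_assoc]
      exact (hFm.comp (measurable_const.prodMk measurable_id)).mul
        (hFm.comp (measurable_const.prodMk measurable_id))
    simp only [h1]
    rw [lintegral_tsum fun k => ((hAm k).const_mul _).aemeasurable, ← ENNReal.tsum_mul_left]
    refine tsum_congr fun k => ?_
    rw [hT2, arith, lintegral_const_mul _ (hAm k)]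
  have hZ2 : ∫ p in B, Z2 μ F c p.1 p.2 ∂(μ.prod μ) =
      (∫⁻ p in B, Z μ F (fun y => ENNReal.ofReal c * (F p.1 y * F p.2 y)) ∂(μ.prod μ)).toReal := by
    rw [← integral_toReal hZm.aemeasurable (ae_of_all _ fun p => ?_)]
    · rfl
    · refine (Z_fin hF c hc _ fun y => ?_).lt_top
      exact mul_le_of_le_one_right (by simp) (mul_le_one' (hF.le_one p.1 y) (hF.le_one p.2 y))
  rw [hZ2]
  have hl : ∀ k : ℕ, c ^ k / k.factorial * ∫ x in {x : Fin k → Ω | ∀ i j, i < j → F (x i) (x j) = 1},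
      (#{p : Fin k × Fin k | p.1 ≠ p.2 ∧ (x p.1, x p.2) ∈ B} : ℝ) ∂(Measure.pi fun _ : Fin k => μ) =
      (ENNReal.ofReal c ^ k / (k.factorial : ℝ≥0∞) * Tk k).toReal := by
    intro k
    have h1 := hTreal k
    rw [hCf] at h1
    rw [h1, ENNReal.toReal_mul, ENNReal.toReal_div, ENNReal.toReal_pow, ENNReal.toReal_ofReal hc,
      ENNReal.toReal_natCast]
  rw [tsum_congr hl, ← ENNReal.tsum_toReal_eq, hmain, ENNReal.toReal_mul, ENNReal.toReal_pow,
    ENNReal.toReal_ofReal hc]
  intro k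
  refine ENNReal.mul_ne_top (ENNReal.div_ne_top ?_ ?_) (hTfin k)
  · exact ENNReal.pow_ne_top ENNReal.ofReal_ne_top
  · rw [Nat.cast_ne_zero]
    exact Nat.factorial_ne_zero k

end Pool.Agent.N624.DC
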